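import Pool.Agent.H47.ST.Targets

/-!
Steingrimsson's conjecture (MP_78620a_co): counting the sorted words by rank histories (row CNT).
-/

namespace Pool.Agent.H19.STK

open Finset Pool.Agent.H47.ST

/-- placements in two lists of blocks of the same lengths -/
def Rel (V st : List (List ℕ)) (q q2 : Pl) : Prop :=
  V = q.1 ++ (q.2.1 ++ q.2.2.1) :: q.2.2.2 ∧ st = q2.1 ++ (q2.2.1 ++ q2.2.2.1) :: q2.2.2.2 ∧
  q.1.map List.length = q2.1.map List.length ∧ q.2.1.length = q2.2.1.length ∧
  q.2.2.1.length = q2.2.2.1.length ∧ q.2.2.2.map List.length = q2.2.2.2.map List.length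

theorem rel_plc (V : List (List ℕ)) : ∀ (L L2 st : List (List ℕ)),
    L.map List.length = L2.map List.length → V.map List.length = st.map List.length →
    List.Forall₂ (Rel (L ++ V) (L2 ++ st)) (plc L V) (plc L2 st) := by
  induction V with
  | nil =>
    intro L L2 st _ h
    have h2 : st = [] := by
      rw [List.map_nil, eq_comm, List.map_eq_nil_iff] at h
      exact h
    rw [h2]
    exact List.Forall₂.nil
  | cons B Rs ih =>
    intro L L2 st hL h
    rcases st with _ | ⟨B2, Rs2⟩
    · simp at h
    · rw [List.map_cons, List.map_cons, List.cons.injEq] at h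
      obtain ⟨hB, hR⟩ := h
      simp only [plc]
      refine List.rel_append ?_ ?_
      · rw [hB, List.forall₂_map_left_iff, List.forall₂_map_right_iff, List.forall₂_same]
        intro p hp
        rw [List.mem_range] at hp
        refine ⟨?_, ?_, hL, ?_, ?_, hR⟩
        · simp only [List.take_append_drop]
        · simp only [List.take_append_drop]
        · simp only [List.length_take]
          omega
        · simp only [List.length_drop]
          omega
      · have h1 := ih (L ++ [B]) (L2 ++ [B2]) Rs2 (by
          rw [List.map_append, List.map_append, hL, List.map_singleton, List.map_singleton, hB]) hR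
        rw [List.append_assoc, List.append_assoc, List.singleton_append, List.singleton_append] at h1
        exact h1

theorem vpl_flatten (V : List (List ℕ)) (q : Pl) (h : V = q.1 ++ (q.2.1 ++ q.2.2.1) :: q.2.2.2) :
    (vpl q).flatten = step V.flatten (q.1.flatten ++ q.2.1).length := by
  obtain ⟨Ls, X, Y, Rs⟩ := q
  have h1 : V.flatten = (Ls.flatten ++ X) ++ (Y ++ Rs.flatten) := by
    rw [h]
    simp
  have h2 : (V.flatten).map Nat.succ =
      (Ls.flatten ++ X).map Nat.succ ++ (Y ++ Rs.flatten).map Nat.succ := by
    rw [h1, List.map_append]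
  have h3 : ((Ls.flatten ++ X).map Nat.succ).length = (Ls.flatten ++ X).length := List.length_map _
  unfold step vpl
  rw [h2, ← h3, List.take_left, List.drop_left]
  simp [List.map_flatten]

theorem step_perm (w : List ℕ) (n p : ℕ) (h : w.Perm (List.range n)) :
    (step w p).Perm (List.range (n + 1)) := by
  unfold step
  refine List.perm_middle.trans ?_
  rw [List.take_append_drop, List.range_succ_eq_map]
  exact (h.map Nat.succ).cons 0

theorem reach_sorted (h2 : T_UNS) (h6 : T_PLC) (R : ℕ) (V2 : List (List ℕ)) : ∀ (k n : ℕ)
    (V : List (List ℕ)), V.flatten.Perm (List.range n) → V2 ∈ reach k V →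
    T^[R] V2.flatten = List.range (n + k) → T^[R] V.flatten = List.range n := by
  intro k
  induction k with
  | zero =>
    intro n V _ hV h
    rw [reach, Finset.mem_singleton] at hV
    rw [← hV]
    exact h
  | succ k ih =>
    intro n V hP hV h
    rw [reach, Finset.mem_biUnion] at hV
    obtain ⟨V1, hV1, hV2⟩ := hV
    rw [Finset.mem_image] at hV1
    obtain ⟨q, hq, rfl⟩ := hV1
    rw [List.mem_toFinset] at hq
    have hq' := (h6 V q).1 hq
    have h1 := vpl_flatten V q hq'
    have hlen : (q.1.flatten ++ q.2.1).length ≤ n := by
      have h3 : V.flatten.length = n := by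
        rw [hP.length_eq, List.length_range]
      have h4 : V.flatten.length = (q.1.flatten ++ q.2.1).length +
          (q.2.2.1 ++ q.2.2.2.flatten).length := by
        rw [← List.length_append]
        congr 1
        conv_lhs => rw [hq']
        simp
      omega
    have h3 := ih (n + 1) (vpl q) (by rw [h1]; exact step_perm _ _ _ hP) hV2 (by
      rw [h]
      congr 1
      omega)
    rw [h1] at h3
    exact h2 n V.flatten _ R hP hlen h3

theorem reach_okM (h6 : T_PLC) (m0 : ℕ) (V2 : List (List ℕ)) (hm : okM m0 V2) : ∀ (k : ℕ)
    (V : List (List ℕ)), V2 ∈ reach k V → okM m0 V := by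
  intro k
  induction k with
  | zero =>
    intro V hV
    rw [reach, Finset.mem_singleton] at hV
    rw [← hV]
    exact hm
  | succ k ih =>
    intro V hV
    rw [reach, Finset.mem_biUnion] at hV
    obtain ⟨V1, hV1, hV2⟩ := hV
    rw [Finset.mem_image] at hV1
    obtain ⟨q, hq, rfl⟩ := hV1
    rw [List.mem_toFinset] at hq
    have hq' := (h6 V q).1 hq
    have h1 := ih (vpl q) hV2
    intro B hB
    rw [hq', List.mem_append, List.mem_cons] at hB
    rcases hB with hB | hB | hB
    · have h3 := h1 (B.map Nat.succ) (by
        unfold vpl
        exact List.mem_append_left _ (List.mem_map_of_mem hB))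
      rwa [List.length_map] at h3
    · have h3 := h1 (q.2.1.map Nat.succ ++ 0 :: q.2.2.1.map Nat.succ) (by
        unfold vpl
        exact List.mem_append_right _ List.mem_cons_self)
      rw [hB]
      simp only [List.length_append, List.length_map, List.length_cons] at h3 ⊢
      omega
    · have h3 := h1 (B.map Nat.succ) (by
        unfold vpl
        exact List.mem_append_right _ (List.mem_cons_of_mem _ (List.mem_map_of_mem hB)))
      rwa [List.length_map] at h3

theorem ncard_list (A : Pl → Set (List (List ℕ))) (l : List Pl) :
    {V' | ∃ q ∈ l, V' ∈ A q}.ncard ≤ (l.map fun q => (A q).ncard).sum := by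
  induction l with
  | nil => simp
  | cons q l ih =>
    have h1 : {V' | ∃ q' ∈ q :: l, V' ∈ A q'} = A q ∪ {V' | ∃ q' ∈ l, V' ∈ A q'} := by
      ext V'
      simp
    rw [h1, List.map_cons, List.sum_cons]
    exact (Set.ncard_union_le _ _).trans (Nat.add_le_add_left ih _)

theorem pf_CNT (h1 : T_STW) (h2 : T_UNS) (h3 : T_RB) (h4 : T_INS) (h5 : T_FLT) (h6 : T_PLC)
    (h7 : T_ITE) : T_CNT := by
  classical
  intro R m0 k
  induction k with
  | zero =>
    intro n V st _ _ _
    have hs : {V' | V' ∈ reach 0 V ∧ T^[R] V'.flatten = List.range (n + 0) ∧ okM m0 V'} ⊆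
        {V} := by
      rintro V' ⟨hV, -, -⟩
      rw [reach, Finset.mem_singleton] at hV
      exact hV
    refine (Set.ncard_le_ncard hs (Set.finite_singleton _)).trans ?_
    rw [Set.ncard_singleton, NN]
  | succ k ih =>
    intro n V st hlen hP hI
    have hset : {V' | V' ∈ reach (k + 1) V ∧ T^[R] V'.flatten = List.range (n + (k + 1)) ∧
        okM m0 V'} = {V' | ∃ q ∈ plc [] V, V' ∈ {V' | V' ∈ reach k (vpl q) ∧
          T^[R] V'.flatten = List.range (n + 1 + k) ∧ okM m0 V'}} := by
      ext V'
      have he : n + (k + 1) = n + 1 + k := by omega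
      rw [he]
      simp only [Set.mem_ofPred_eq, reach, Finset.mem_biUnion, Finset.mem_image, List.mem_toFinset]
      constructor
      · rintro ⟨⟨V1, ⟨q, hq, rfl⟩, hV⟩, h⟩
        exact ⟨q, hq, hV, h⟩
      · rintro ⟨q, hq, hV, h⟩
        exact ⟨⟨vpl q, ⟨q, hq, rfl⟩, hV⟩, h⟩
    rw [hset]
    refine (ncard_list _ _).trans ?_
    rw [NN]
    refine List.Forall₂.sum_le_sum ?_
    rw [List.forall₂_map_left_iff, List.forall₂_map_right_iff]
    have hrel := rel_plc V [] [] st rfl hlen
    rw [List.nil_append, List.nil_append] at hrel
    refine hrel.imp ?_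
    intro q q2 hqq
    obtain ⟨e1, e2, l1, l2, l3, l4⟩ := hqq
    by_cases hne : {V' | V' ∈ reach k (vpl q) ∧ T^[R] V'.flatten = List.range (n + 1 + k) ∧
        okM m0 V'} = ∅
    · rw [hne, Set.ncard_empty]
      exact Nat.zero_le _
    · obtain ⟨V2, hV2, hs2, hm2⟩ := Set.nonempty_iff_ne_empty.2 hne
      have hf := vpl_flatten V q e1
      have hVlen : V.flatten.length = n := by
        rw [hP.length_eq, List.length_range]
      have hV1 : V.flatten = (q.1.flatten ++ q.2.1) ++ (q.2.2.1 ++ q.2.2.2.flatten) := by
        conv_lhs => rw [e1]
        simp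
      have hst1 : st.flatten = (q2.1.flatten ++ q2.2.1) ++ (q2.2.2.1 ++ q2.2.2.2.flatten) := by
        conv_lhs => rw [e2]
        simp
      have hPle : (q.1.flatten ++ q.2.1).length ≤ n := by
        rw [← hVlen, hV1, List.length_append (as := q.1.flatten ++ q.2.1)]
        omega
      have hPP : (q.1.flatten ++ q.2.1).length = (q2.1.flatten ++ q2.2.1).length := by
        rw [List.length_append, List.length_append, List.length_flatten, List.length_flatten, l1,
          l2]
      have hstlen : st.flatten.length = n := by
        rw [← hVlen, List.length_flatten, List.length_flatten, hlen]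
      have hperm1 : (vpl q).flatten.Perm (List.range (n + 1)) := by
        rw [hf]
        exact step_perm _ _ _ hP
      have hfl := h5 q2.1 q2.2.1 q2.2.2.1 q2.2.2.2
      have hI1 : Inv (n + 1) (gw (vpl q).flatten) (fun i => (plq 1 q2).flatten.getD i 0) := by
        have hs := h1 n V.flatten (fun i => st.flatten.getD i 0) _ hP hPle hI
        rw [← hf] at hs
        intro k' p' q' hpq hq'
        rw [hs k' p' q' hpq hq']
        have hins : ∀ i, i < q' → insr (q.1.flatten ++ q.2.1).length
            (fun i => st.flatten.getD i 0) i = (plq 1 q2).flatten.getD i 0 := by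
          intro i hi
          unfold plq
          rw [hfl.1, h4 (q2.1.flatten ++ q2.2.1) (q2.2.2.1 ++ q2.2.2.2.flatten) i (by
            rw [← hst1, hstlen]
            omega), ← hst1, hPP]
        constructor
        · intro h i hi1 hi2
          have h8 := h i hi1 hi2
          rw [hins i hi2] at h8
          exact h8
        · intro h i hi1 hi2
          have h8 := h i hi1 hi2
          rw [hins i hi2]
          exact h8
      have hsort := reach_sorted h2 h6 R V2 k (n + 1) (vpl q) hperm1 hV2 hs2
      have hrb := h3 (n + 1) (vpl q).flatten _ R hperm1 hsort hI1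
      have hlen1 : (vpl q).map List.length = (plq 1 q2).map List.length := by
        have h8 := hfl.2
        change (plq 1 q2).map List.length = _ at h8
        rw [h8]
        unfold vpl
        rw [List.map_append, List.map_cons, List.map_map, List.map_map]
        congr 1
        · rw [← l1]
          refine List.map_congr_left fun B _ => ?_
          simp
        · congr 1
          · simp only [List.length_append, List.length_map, List.length_cons]
            omega
          · rw [← l4]
            refine List.map_congr_left fun B _ => ?_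
            simp
      have hokR : okR R (plq 1 q2) := by
        intro B hB r hr
        have h8 : r ∈ (plq 1 q2).flatten := List.mem_flatten.2 ⟨B, hB, hr⟩
        obtain ⟨i, hi, rfl⟩ := List.mem_iff_getElem.1 h8
        have h9 : (plq 1 q2).flatten.length = n + 1 := by
          rw [List.length_flatten, ← hlen1, ← List.length_flatten, hperm1.length_eq,
            List.length_range]
        have h10 := hrb i (by omega)
        rw [List.getD_eq_getElem _ _ hi] at h10
        exact h10
      have hokM1 := reach_okM h6 m0 V2 hm2 k (vpl q) hV2
      have hokM : okM m0 (plq 1 q2) := by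
        intro B hB
        have h8 : B.length ∈ (plq 1 q2).map List.length := List.mem_map_of_mem hB
        rw [← hlen1, List.mem_map] at h8
        obtain ⟨B', hB', h9⟩ := h8
        rw [← h9]
        exact hokM1 B' hB'
      rw [if_pos ⟨hokR, hokM⟩]
      exact ih (n + 1) (vpl q) (plq 1 q2) hlen1 hperm1 hI1

end Pool.Agent.H19.STK
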