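import Pool.Agent.H47.ST.Targets

/-!
Steingrimsson's conjecture (MP_78620a_co): the insertion rule on lists (row INS).
-/

namespace Pool.Agent.H19.STK

open Finset Pool.Agent.H47.ST

theorem up_length (e : ℕ) (B : List ℕ) : ∀ h, (up e h B).length = B.length := by
  induction B with
  | nil => intro h; rfl
  | cons r B ih =>
    intro h
    by_cases hr : h ≤ r
    · rw [up, if_pos hr, List.length_cons, List.length_cons, ih]
    · rw [up, if_neg hr, List.length_cons, List.length_cons, ih]

theorem up_getD (e : ℕ) (B : List ℕ) : ∀ (h i : ℕ), i < B.length →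
    ((B.getD i 0 % 2 = e ∧ h ≤ B.getD i 0 ∧ ∀ j, j < i → B.getD j 0 < B.getD i 0) →
      (up e h B).getD i 0 = B.getD i 0 + 1) ∧
    (¬ (B.getD i 0 % 2 = e ∧ h ≤ B.getD i 0 ∧ ∀ j, j < i → B.getD j 0 < B.getD i 0) →
      (up e h B).getD i 0 = B.getD i 0) := by
  induction B with
  | nil => intro h i hi; simp at hi
  | cons r B ih =>
    intro h i hi
    rcases i with _ | i
    · by_cases hr : h ≤ r
      · rw [up, if_pos hr]
        simp only [List.getD_cons_zero]
        constructor
        · rintro ⟨h1, -, -⟩
          rw [if_pos h1]
        · intro h1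
          rw [if_neg]
          intro h2
          exact h1 ⟨h2, hr, fun j hj => absurd hj (Nat.not_lt_zero j)⟩
      · rw [up, if_neg hr]
        simp only [List.getD_cons_zero]
        constructor
        · rintro ⟨-, h1, -⟩
          exact absurd h1 hr
        · intro _
          trivial
    · have hi' : i < B.length := by simpa using hi
      by_cases hr : h ≤ r
      · rw [up, if_pos hr]
        simp only [List.getD_cons_succ]
        obtain ⟨h1, h2⟩ := ih (r + 1) i hi'
        constructor
        · rintro ⟨h3, h4, h5⟩
          refine h1 ⟨h3, ?_, fun j hj => ?_⟩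
          · have := h5 0 (Nat.succ_pos i)
            simpa using this
          · have := h5 (j + 1) (by omega)
            simpa using this
        · intro h3
          refine h2 fun h4 => h3 ⟨h4.1, by omega, fun j hj => ?_⟩
          rcases j with _ | j
          · simp only [List.getD_cons_zero]
            omega
          · simp only [List.getD_cons_succ]
            exact h4.2.2 j (by omega)
      · rw [up, if_neg hr]
        simp only [List.getD_cons_succ]
        obtain ⟨h1, h2⟩ := ih h i hi'
        constructor
        · rintro ⟨h3, h4, h5⟩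
          refine h1 ⟨h3, h4, fun j hj => ?_⟩
          have := h5 (j + 1) (by omega)
          simpa using this
        · intro h3
          refine h2 fun h4 => h3 ⟨h4.1, h4.2.1, fun j hj => ?_⟩
          rcases j with _ | j
          · simp only [List.getD_cons_zero]
            have := h4.2.1
            omega
          · simp only [List.getD_cons_succ]
            exact h4.2.2 j (by omega)

theorem getD_reverse' (X : List ℕ) (i : ℕ) (hi : i < X.length) :
    X.reverse.getD i 0 = X.getD (X.length - 1 - i) 0 := by
  rw [List.getD_eq_getElem _ _ (by rw [List.length_reverse]; exact hi),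
    List.getD_eq_getElem _ _ (by omega), List.getElem_reverse]

theorem pf_INS : T_INS := by
  intro X Y i hi
  rw [List.length_append] at hi
  unfold ins insr
  beta_reduce
  have hlen : (up (1 - 1) 0 X.reverse).reverse.length = X.length := by
    rw [List.length_reverse, up_length, List.length_reverse]
  by_cases h1 : i < X.length
  · rw [if_pos h1, List.getD_append _ _ _ _ (by rw [hlen]; exact h1),
      getD_reverse' _ _ (by rw [up_length, List.length_reverse]; exact h1), up_length,
      List.length_reverse]
    have h2 : X.length - 1 - i < X.reverse.length := by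
      rw [List.length_reverse]
      omega
    obtain ⟨ha, hb⟩ := up_getD (1 - 1) X.reverse 0 (X.length - 1 - i) h2
    have h3 : X.reverse.getD (X.length - 1 - i) 0 = X.getD i 0 := by
      rw [getD_reverse' _ _ (by omega)]
      congr 1
      omega
    have h4 : ∀ j, j < X.length → (X ++ Y).getD j 0 = X.getD j 0 := fun j hj =>
      List.getD_append _ _ _ _ hj
    rw [h3] at ha hb
    by_cases hc : ((X ++ Y).getD i 0 % 2 = 0 ∧ ∀ j, i < j → j < X.length →
        (X ++ Y).getD j 0 < (X ++ Y).getD i 0)
    · rw [if_pos hc, ha ?_, h4 i h1]
      rw [h4 i h1] at hc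
      refine ⟨hc.1, Nat.zero_le _, fun j hj => ?_⟩
      rw [getD_reverse' _ _ (by omega)]
      have h5 := hc.2 (X.length - 1 - j) (by omega) (by omega)
      rwa [h4 _ (by omega)] at h5
    · rw [if_neg hc, hb ?_, h4 i h1]
      intro h5
      apply hc
      rw [h4 i h1]
      refine ⟨h5.1, fun j hj1 hj2 => ?_⟩
      have h6 := h5.2.2 (X.length - 1 - j) (by omega)
      rw [getD_reverse' _ _ (by omega)] at h6
      rw [h4 j hj2]
      have h7 : X.length - 1 - (X.length - 1 - j) = j := by omega
      rwa [h7] at h6
  · rw [if_neg h1, List.getD_append_right _ _ _ _ (by rw [hlen]; omega), hlen]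
    by_cases h2 : i = X.length
    · rw [if_pos h2, h2, Nat.sub_self, List.getD_cons_zero]
    · rw [if_neg h2]
      obtain ⟨d, hd⟩ : ∃ d, i = X.length + (d + 1) := ⟨i - X.length - 1, by omega⟩
      have hd1 : i - X.length = d + 1 := by omega
      have hd2 : i - 1 = X.length + d := by omega
      rw [hd1, List.getD_cons_succ, hd2]
      have h4 : ∀ j, (X ++ Y).getD (X.length + j) 0 = Y.getD j 0 := fun j => by
        rw [List.getD_append_right _ _ _ _ (by omega)]
        congr 1
        omega
      obtain ⟨ha, hb⟩ := up_getD 1 Y 0 d (by omega)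
      by_cases hc : ((X ++ Y).getD (X.length + d) 0 % 2 = 1 ∧ ∀ j, X.length ≤ j →
          j < X.length + d → (X ++ Y).getD j 0 < (X ++ Y).getD (X.length + d) 0)
      · rw [if_pos hc, ha ?_, h4]
        rw [h4] at hc
        refine ⟨hc.1, Nat.zero_le _, fun j hj => ?_⟩
        have h5 := hc.2 (X.length + j) (by omega) (by omega)
        rwa [h4] at h5
      · rw [if_neg hc, hb ?_, h4]
        intro h5
        apply hc
        rw [h4]
        refine ⟨h5.1, fun j hj1 hj2 => ?_⟩
        obtain ⟨j', rfl⟩ := Nat.exists_eq_add_of_le hj1
        rw [h4]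
        exact h5.2.2 j' (by omega)

end Pool.Agent.H19.STK
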