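import Pool.Agent.H47.ST.Targets

/-!
Steingrimsson's conjecture (MP_78620a_co): all placements (row PLC).
-/

namespace Pool.Agent.H19.STK

open Finset Pool.Agent.H47.ST

theorem mem_plc (st : List (List ℕ)) : ∀ (L : List (List ℕ)) (q : Pl),
    q ∈ plc L st ↔ ∃ L1, q.1 = L ++ L1 ∧ st = L1 ++ (q.2.1 ++ q.2.2.1) :: q.2.2.2 := by
  induction st with
  | nil =>
    intro L q
    constructor
    · intro h
      simp [plc] at h
    · rintro ⟨L1, -, h⟩
      exact absurd h.symm (by simp)
  | cons B Rs ih =>
    intro L q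
    obtain ⟨Ls, X, Y, R2⟩ := q
    simp only [plc, List.mem_append, List.mem_map, List.mem_range, ih]
    constructor
    · rintro (⟨p, hp, h⟩ | ⟨L1, h1, h2⟩)
      · obtain ⟨rfl, rfl, rfl, rfl⟩ := Prod.mk.inj h |>.imp id fun h =>
          (Prod.mk.inj h).imp id fun h => Prod.mk.inj h
        exact ⟨[], by simp, by simp⟩
      · exact ⟨B :: L1, by rw [h1]; simp, by rw [h2]; simp⟩
    · rintro ⟨L1, h1, h2⟩
      rcases L1 with _ | ⟨B1, L1⟩
      · left
        rw [List.nil_append, List.cons.injEq] at h2
        refine ⟨X.length, ?_, ?_⟩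
        · rw [h2.1, List.length_append]
          omega
        · rw [h2.1, h2.2, List.take_left, List.drop_left, h1, List.append_nil]
      · right
        rw [List.cons_append, List.cons.injEq] at h2
        exact ⟨L1, by rw [h1, ← h2.1]; simp, h2.2⟩

theorem pf_PLC : T_PLC := by
  intro st q
  rw [mem_plc st [] q]
  constructor
  · rintro ⟨L1, h1, h2⟩
    rw [h1, List.nil_append]
    exact h2
  · intro h
    exact ⟨q.1, by simp, h⟩

end Pool.Agent.H19.STK
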